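import Pool.Agent.Helper884.IC.Two9

set_option linter.unusedSectionVars false
set_option linter.style.haveILetI false

open scoped BigOperators Classical
open Pool.Agent.Helper884.IC

namespace Pool.Agent.Results.MP_ecd49d_al.Main

lemma odd_cyclic (G : Type) [Group G] [Fintype G] (hodd : Odd (Nat.card G)) (hIC : HasIC G) (p : ℕ)
    (hp : p.Prime) : ∀ P : Sylow p G, IsCyclic P := by
  haveI : Fact p.Prime := ⟨hp⟩
  by_contra hnc
  have hord : ∀ g : G, Odd (orderOf g) := fun g => Odd.of_dvd_nat hodd (orderOf_dvd_natCard g)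
  by_cases hp2 : p = 2
  · subst hp2
    apply hnc
    intro P
    have h1 : Nat.card P = 1 := by
      rw [P.card_eq_multiplicity, Nat.factorization_eq_zero_of_not_dvd, pow_zero]
      intro h
      exact (Nat.not_even_iff_odd.mpr hodd) (even_iff_two_dvd.mpr h)
    haveI : Subsingleton P := (Nat.card_eq_one_iff_unique.mp h1).1
    exact isCyclic_of_subsingleton
  · have hB := nec_B hIC p hp2 hnc
    -- a nontrivial p-element
    obtain ⟨u, hu1, hu⟩ : ∃ u : G, u ≠ 1 ∧ IsPE p u := by
      by_contra hcon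
      push Not at hcon
      apply hnc
      intro P
      haveI : Subsingleton P := by
        constructor
        intro a b
        have h1 : ∀ c : P, c = 1 := by
          intro c
          by_contra hc
          exact hcon (c : G) (fun h => hc (Subtype.ext h)) (IsPE.of_mem_pgroup P.2 c.2)
        rw [h1 a, h1 b]
      exact isCyclic_of_subsingleton
    obtain ⟨y, hy⟩ := isConj_iff.mp (conj_inv_of_B p hB hu)
    -- y ^ 2 commutes with u, y has odd order
    obtain ⟨m, hm⟩ := hord y
    have h2 : ∀ k : ℕ, y ^ (2 * k) * u * (y ^ (2 * k))⁻¹ = u := by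
      intro k
      induction k with
      | zero => simp
      | succ k ih =>
        have e1 : y ^ (2 * (k + 1)) * u * (y ^ (2 * (k + 1)))⁻¹
            = y ^ (2 * k) * (y * (y * u * y⁻¹) * y⁻¹) * (y ^ (2 * k))⁻¹ := by
          have : y ^ (2 * (k + 1)) = y ^ (2 * k) * (y * y) := by rw [mul_add, pow_add]; group
          rw [this]; group
        have e2 : y * (y * u * y⁻¹) * y⁻¹ = u := by
          rw [hy]
          have : y * u⁻¹ * y⁻¹ = (y * u * y⁻¹)⁻¹ := by group
          rw [this, hy, inv_inv]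
        rw [e1, e2, ih]
    have h3 : y ^ (2 * (m + 1)) = y := by
      have : 2 * (m + 1) = orderOf y + 1 := by omega
      rw [this, pow_succ, pow_orderOf_eq_one, one_mul]
    have h4 := h2 (m + 1)
    rw [h3, hy] at h4
    -- u⁻¹ = u
    have h5 : u ^ 2 = 1 := by
      rw [pow_two]
      calc u * u = u⁻¹⁻¹ * u := by rw [inv_inv]
        _ = u⁻¹ * u := by rw [h4]; rw [h4]
        _ = 1 := inv_mul_cancel u
    have h6 := orderOf_dvd_of_pow_eq_one h5
    have h7 := hord u
    rcases (Nat.dvd_prime Nat.prime_two).mp h6 with h8 | h8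
    · exact hu1 (orderOf_eq_one_iff.mp h8)
    · rw [h8] at h7
      exact absurd h7 (by decide)

/-- Description of all finite groups with property (IC). -/
theorem result :
    (∀ (G : Type) [Group G] [Fintype G],
      HasIC G ↔
        (∀ p : ℕ, p.Prime → p ≠ 2 →
          ((∀ P : Sylow p G, IsCyclic P) ∨ (CondA p G ∧ CondB p G ∧ OneBig p G))) ∧
        ((∀ P : Sylow 2 G, IsCyclic P) ∨ (CondA 2 G ∧
          ((∀ P : Sylow 2 G, IsDSQ P) ∨ ((∀ P : Sylow 2 G, ∀ u ∈ P, u ^ 2 = 1) ∧
            (¬ 8 ∣ Nat.card G ∨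
              ∀ u v : G, orderOf u = 2 → orderOf v = 2 → IsConj u v)))))) ∧
    (∀ (G : Type) [Group G] [Fintype G] (p : ℕ), p.Prime → OneBig p G →
      ¬ (∀ P : Sylow p G, IsCyclic P) →
        ((∀ P : Sylow p G, Nat.card P = p ^ 2) ∨
          (∀ u v : G, u ≠ 1 → v ≠ 1 → IsPE p u → IsPE p v → IsConj u v) ∨
          (∀ P : Sylow p G, ∃ u ∈ P,
            Nat.card (Subgroup.centralizer ({u} : Set G) ⊓ P : Subgroup G) = p ^ 2))) ∧
    (∀ (G : Type) [Group G] [Fintype G], Odd (Nat.card G) →
      (HasIC G ↔ ∀ p : ℕ, p.Prime → ∀ P : Sylow p G, IsCyclic P)) ∧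
    (∀ (G : Type) [Group G] [Fintype G] (p : ℕ), p.Prime → IsPGroup p G →
      (HasIC G ↔ (IsCyclic G ∨ (p = 2 ∧ (IsDSQ G ∨ Nat.card G = 4))))) := by
  refine ⟨?_, ?_, ?_, ?_⟩
  · intro G _ _
    exact main_iff
  · intro G _ _ p hp hO hnc
    haveI : Fact p.Prime := ⟨hp⟩
    exact tri p hO hnc
  · intro G _ _ hodd
    constructor
    · intro hIC p hp
      exact odd_cyclic G hodd hIC p hp
    · intro h
      exact suf (fun p hp => Or.inl (h p hp))
  · intro G _ _ p hp hG
    haveI : Fact p.Prime := ⟨hp⟩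
    exact pgroup_iff p hG

end Pool.Agent.Results.MP_ecd49d_al.Main
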